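import Mathlib
import Pool.Agent.Helper91.FS.Goals2

/-!
# Project FS, part 2: subgroups of the semilinear affine group (packet FS-AFG)
-/

set_option autoImplicit false

namespace Pool.Agent.Helper23.FS

open Finset
open Pool.Agent.Helper47.SR (Grp mv lev wt)
open Pool.Agent.Helper49.NF
open Pool.Agent.Helper91.FS
open scoped MatrixGroups

section ext

variable {n : ℕ} {K : Type}

/-- the projective line as `Fin (n + 1)` -/
def el (e : K ≃ Fin n) : OnePoint K ≃ Fin (n + 1) :=
  ((Equiv.optionCongr e : Option K ≃ Option (Fin n)).trans finSuccEquivLast.symm)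

lemma el_some (e : K ≃ Fin n) (x : K) : el e (x : OnePoint K) = (e x).castSucc := by
  change finSuccEquivLast.symm ((Equiv.optionCongr e) (some x)) = _
  rw [Equiv.optionCongr_apply, Option.map_some, finSuccEquivLast_symm_some]

lemma el_inf (e : K ≃ Fin n) : el e (OnePoint.infty : OnePoint K) = Fin.last n := by
  change finSuccEquivLast.symm ((Equiv.optionCongr e) none) = _
  rw [Equiv.optionCongr_apply, Option.map_none, finSuccEquivLast_symm_none]

/-- extension of a permutation by a fixed point -/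
def ex (γ : Equiv.Perm (Fin n)) : Equiv.Perm (Fin (n + 1)) :=
  finSuccEquivLast.trans ((Equiv.optionCongr γ).trans finSuccEquivLast.symm)

lemma ex_cast (γ : Equiv.Perm (Fin n)) (x : Fin n) : ex γ x.castSucc = (γ x).castSucc := by
  simp only [ex, Equiv.trans_apply, finSuccEquivLast_castSucc, Equiv.optionCongr_apply,
    Option.map_some, finSuccEquivLast_symm_some]

lemma ex_last (γ : Equiv.Perm (Fin n)) : ex γ (Fin.last n) = Fin.last n := by
  simp only [ex, Equiv.trans_apply, finSuccEquivLast_last, Equiv.optionCongr_apply,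
    Option.map_none, finSuccEquivLast_symm_none]

lemma ex_inj : Function.Injective (ex : Equiv.Perm (Fin n) → Equiv.Perm (Fin (n + 1))) := by
  intro γ γ' h
  ext x
  have h1 : ex γ x.castSucc = ex γ' x.castSucc := by rw [h]
  rw [ex_cast, ex_cast] at h1
  exact congrArg Fin.val (Fin.castSucc_injective n h1)

lemma ex_one : ex (1 : Equiv.Perm (Fin n)) = 1 := by
  ext x
  induction x using Fin.lastCases with
  | last => rw [ex_last]; rfl
  | cast x => rw [ex_cast]; rfl

end ext

section field

variable {n : ℕ} {K : Type} [Field K] [DecidableEq K]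

lemma map_infty (φ : K ≃+* K) : OnePoint.map φ (OnePoint.infty : OnePoint K) = OnePoint.infty := rfl

lemma map_some (φ : K ≃+* K) (x : K) : OnePoint.map φ (x : OnePoint K) = ((φ x : K) : OnePoint K) :=
  rfl

/-- the extensions are in the semilinear projective group -/
lemma ex_mem (e : K ≃ Fin n) {γ : Equiv.Perm (Fin n)} (h : γ ∈ agam e) :
    ex γ ∈ pgam (el e) := by
  obtain ⟨a, b, φ, hg⟩ := h
  have hdet : (!![(a : K), b; 0, 1] : Matrix (Fin 2) (Fin 2) K).det ≠ 0 := by
    rw [Matrix.det_fin_two_of]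
    simp
  refine ⟨Matrix.GeneralLinearGroup.mkOfDetNeZero !![(a : K), b; 0, 1] hdet, φ, ?_⟩
  intro x
  have c00 : (Matrix.GeneralLinearGroup.mkOfDetNeZero !![(a : K), b; 0, 1] hdet) 0 0 = a := rfl
  have c01 : (Matrix.GeneralLinearGroup.mkOfDetNeZero !![(a : K), b; 0, 1] hdet) 0 1 = b := rfl
  have c10 : (Matrix.GeneralLinearGroup.mkOfDetNeZero !![(a : K), b; 0, 1] hdet) 1 0 = 0 := rfl
  have c11 : (Matrix.GeneralLinearGroup.mkOfDetNeZero !![(a : K), b; 0, 1] hdet) 1 1 = 1 := rfl
  cases x with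
  | infty =>
    rw [map_infty, OnePoint.smul_infty_eq_ite, c10, if_pos rfl, el_inf, ex_last]
  | coe x =>
    rw [map_some, OnePoint.smul_some_eq_ite, c00, c01, c10, c11, if_neg (by simp), el_some,
      ex_cast, hg]
    have h1 : ((a : K) * φ x + b) / (0 * φ x + 1) = (a : K) * φ x + b := by simp
    rw [h1, el_some]

/-- the matrix of order three -/
def mt : Matrix (Fin 2) (Fin 2) K := !![0, -1; 1, 1]

lemma mt_det : (mt : Matrix (Fin 2) (Fin 2) K).det ≠ 0 := by
  unfold mt
  rw [Matrix.det_fin_two_of]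
  simp

/-- its element -/
def ge : GL (Fin 2) K := Matrix.GeneralLinearGroup.mkOfDetNeZero mt mt_det

lemma ge00 : (ge : GL (Fin 2) K) 0 0 = 0 := rfl
lemma ge01 : (ge : GL (Fin 2) K) 0 1 = -1 := rfl
lemma ge10 : (ge : GL (Fin 2) K) 1 0 = 1 := rfl
lemma ge11 : (ge : GL (Fin 2) K) 1 1 = 1 := rfl

/-- the semilinear permutation of the line -/
def dl (φ : K ≃+* K) : OnePoint K ≃ OnePoint K where
  toFun x := (ge : GL (Fin 2) K) • OnePoint.map φ x
  invFun x := OnePoint.map φ.symm ((ge : GL (Fin 2) K)⁻¹ • x)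
  left_inv x := by
    change OnePoint.map φ.symm ((ge : GL (Fin 2) K)⁻¹ • ((ge : GL (Fin 2) K) • OnePoint.map φ x)) = x
    rw [inv_smul_smul, omap_comp, RingEquiv.self_trans_symm, omap_id]
  right_inv x := by
    change (ge : GL (Fin 2) K) • OnePoint.map φ (OnePoint.map φ.symm ((ge : GL (Fin 2) K)⁻¹ • x)) = x
    rw [omap_comp, RingEquiv.symm_trans_self, omap_id, smul_inv_smul]

/-- the same on `Fin (n + 1)` -/
def dp (e : K ≃ Fin n) (φ : K ≃+* K) : Equiv.Perm (Fin (n + 1)) :=
  (el e).symm.trans ((dl φ).trans (el e))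

lemma dp_apply (e : K ≃ Fin n) (φ : K ≃+* K) (x : OnePoint K) :
    dp e φ (el e x) = el e ((ge : GL (Fin 2) K) • OnePoint.map φ x) := by
  simp only [dp, Equiv.trans_apply, Equiv.symm_apply_apply]
  rfl

lemma dp_mem (e : K ≃ Fin n) (φ : K ≃+* K) : dp e φ ∈ pgam (el e) :=
  ⟨ge, φ, dp_apply e φ⟩

lemma dp_ne (e : K ≃ Fin n) (φ : K ≃+* K) : dp e φ ≠ 1 := by
  intro h
  have h1 := dp_apply e φ (OnePoint.infty : OnePoint K)
  rw [h, Equiv.Perm.one_apply, map_infty, OnePoint.smul_infty_eq_ite, ge10,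
    if_neg one_ne_zero] at h1
  have h2 := (el e).injective h1
  exact OnePoint.infty_ne_coe _ h2

/-- the fixed points of `dp` -/
lemma dp_fix (e : K ≃ Fin n) (φ : K ≃+* K) (u : K) (h0 : φ u + 1 ≠ 0)
    (hu : u * (φ u + 1) = -1) : dp e φ (el e (u : OnePoint K)) = el e (u : OnePoint K) := by
  rw [dp_apply, map_some, OnePoint.smul_some_eq_ite, ge00, ge01, ge10, ge11, one_mul,
    if_neg h0]
  congr 2
  rw [div_eq_iff h0, hu]
  ring

end field

/-- the relation between the pairs `(γ, A)` and the data `(φ, x, y, w)` -/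
def Rl {n : ℕ} {K : Type} [Field K] (e : K ≃ Fin n) (p : Equiv.Perm (Fin n) × Finset (Fin n))
    (q : (K ≃+* K) × (Fin n × Fin n) × Fin (n + 1)) : Prop :=
  ∃ (u a b : K), q.2.2 = el e (u : OnePoint K) ∧ q.2.1.1 ≠ q.2.1.2 ∧
    p.2 = {q.2.1.1, q.2.1.2, e (e.symm q.2.1.2 + u * (e.symm q.2.1.2 - e.symm q.2.1.1))} ∧
    (∀ t : K, p.1 (e t) = e (a * q.1 t + b)) ∧
    a * q.1 (e.symm q.2.1.1) + b = e.symm q.2.1.2 ∧
    a * q.1 (e.symm q.2.1.2) + b = e.symm q.2.1.2 + u * (e.symm q.2.1.2 - e.symm q.2.1.1)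

lemma Rl_unique {n : ℕ} {K : Type} [Field K] (e : K ≃ Fin n)
    (p p' : Equiv.Perm (Fin n) × Finset (Fin n))
    (q : (K ≃+* K) × (Fin n × Fin n) × Fin (n + 1)) (h : Rl e p q) (h' : Rl e p' q) : p = p' := by
  obtain ⟨u, a, b, h1, h2, h3, h4, h5, h6⟩ := h
  obtain ⟨u', a', b', h1', -, h3', h4', h5', h6'⟩ := h'
  have huu : u = u' := by
    have := (el e).injective (h1.symm.trans h1')
    exact OnePoint.coe_injective this
  subst huu
  have hA : p.2 = p'.2 := h3.trans h3'.symm
  have hne : q.1 (e.symm q.2.1.2) - q.1 (e.symm q.2.1.1) ≠ 0 := by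
    intro h
    have h7 := sub_eq_zero.mp h
    exact h2 (e.symm.injective (q.1.injective h7)).symm
  have haa : a = a' := by
    have h8 : a * (q.1 (e.symm q.2.1.2) - q.1 (e.symm q.2.1.1))
        = a' * (q.1 (e.symm q.2.1.2) - q.1 (e.symm q.2.1.1)) := by
      have e1 : a * (q.1 (e.symm q.2.1.2) - q.1 (e.symm q.2.1.1))
          = (a * q.1 (e.symm q.2.1.2) + b) - (a * q.1 (e.symm q.2.1.1) + b) := by ring
      have e2 : a' * (q.1 (e.symm q.2.1.2) - q.1 (e.symm q.2.1.1))
          = (a' * q.1 (e.symm q.2.1.2) + b') - (a' * q.1 (e.symm q.2.1.1) + b') := by ring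
      rw [e1, e2, h5, h6, h5', h6']
    exact mul_right_cancel₀ hne h8
  subst haa
  have hbb : b = b' := by
    have := h5.trans h5'.symm
    exact add_left_cancel this
  subst hbb
  have hγ : p.1 = p'.1 := by
    apply Equiv.ext
    intro x
    have h9 := (h4 (e.symm x)).trans (h4' (e.symm x)).symm
    rw [Equiv.apply_symm_apply] at h9
    exact h9
  exact Prod.ext hγ hA

/-- a 3-cycle of a permutation -/
lemma three_cycle {n : ℕ} (γ : Equiv.Perm (Fin n)) (A : Finset (Fin n)) (hA : A.card = 3)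
    (hm : mv γ A = A) (hs : ∀ x ∈ A, ∀ y ∈ A, γ.SameCycle x y) :
    ∃ x : Fin n, x ≠ γ x ∧ γ x ≠ γ (γ x) ∧ x ≠ γ (γ x) ∧ γ (γ (γ x)) = x ∧
      A = {x, γ x, γ (γ x)} := by
  have hmem : ∀ z ∈ A, γ z ∈ A := by
    intro z hz
    rw [← hm]
    exact mem_map_of_mem _ hz
  have hnf : ∀ z ∈ A, γ z ≠ z := by
    intro z hz hfix
    obtain ⟨w, hw, hwz⟩ : ∃ w ∈ A, w ≠ z := by
      have h1 : 1 < A.card := by omega
      exact exists_mem_ne h1 z
    exact hwz ((hs z hz w hw).eq_of_left hfix).symm
  obtain ⟨x, hx⟩ : A.Nonempty := by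
    rw [← card_pos]; omega
  have hx1 := hmem x hx
  have hx2 := hmem _ hx1
  have hx3 := hmem _ hx2
  have n1 : x ≠ γ x := (hnf x hx).symm
  have n2 : γ x ≠ γ (γ x) := (hnf _ hx1).symm
  have n3 : x ≠ γ (γ x) := by
    intro h
    -- the third element would be fixed
    obtain ⟨w, hw, hwx, hwy⟩ : ∃ w ∈ A, w ≠ x ∧ w ≠ γ x := by
      by_contra hcon
      have hsub : A ⊆ {x, γ x} := by
        intro w hw
        by_contra hw2
        apply hcon
        refine ⟨w, hw, ?_, ?_⟩
        · intro hh; apply hw2; rw [hh]; exact mem_insert_self _ _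
        · intro hh; apply hw2; rw [hh]; exact mem_insert_of_mem (mem_singleton_self _)
      have h1 := card_le_card hsub
      have h2 : ({x, γ x} : Finset (Fin n)).card ≤ 2 := card_le_two
      omega
    have hgw := hmem w hw
    have m1 : γ w ≠ γ x := fun hh => hwx (γ.injective hh)
    have m2 : γ w ≠ x := by
      intro hh
      rw [h] at hh
      exact hwy (γ.injective hh)
    have m3 : γ w ≠ w := hnf w hw
    have hsub : ({x, γ x, w, γ w} : Finset (Fin n)) ⊆ A := by
      intro z hz
      simp only [mem_insert, mem_singleton] at hz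
      rcases hz with rfl | rfl | rfl | rfl
      · exact hx
      · exact hx1
      · exact hw
      · exact hgw
    have hc : ({x, γ x, w, γ w} : Finset (Fin n)).card = 4 := by
      rw [card_insert_of_notMem, card_insert_of_notMem, card_insert_of_notMem, card_singleton]
      · rw [mem_singleton]; exact m3.symm
      · simp only [mem_insert, mem_singleton, not_or]
        exact ⟨hwy.symm, m1.symm⟩
      · simp only [mem_insert, mem_singleton, not_or]
        exact ⟨n1, hwx.symm, m2.symm⟩
    have := card_le_card hsub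
    omega
  have hAeq : A = {x, γ x, γ (γ x)} := by
    symm
    apply eq_of_subset_of_card_le
    · intro z hz
      simp only [mem_insert, mem_singleton] at hz
      rcases hz with rfl | rfl | rfl
      · exact hx
      · exact hx1
      · exact hx2
    · rw [hA, card_eq_three.mpr ⟨x, γ x, γ (γ x), n1, n3, n2, rfl⟩]
  refine ⟨x, n1, n2, n3, ?_, hAeq⟩
  rw [hAeq] at hx3
  simp only [mem_insert, mem_singleton] at hx3
  rcases hx3 with h | h | h
  · exact h
  · exact absurd (γ.injective h).symm n3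
  · exact absurd (γ.injective (γ.injective h)).symm n1

theorem goal_AFG (hP : Goal_PGAMX) : Goal_AFG := by
  intro n K _ e G hG
  classical
  have : Finite K := Finite.of_equiv _ e.symm
  have : Finite (K ≃+* K) :=
    Finite.of_injective (fun φ : K ≃+* K => (φ : K → K)) DFunLike.coe_injective
  let _ : Fintype (K ≃+* K) := Fintype.ofFinite _
  obtain ⟨-, L, hL, hLn, hE⟩ := hP (n + 1) K (el e)
  have hmem : ∀ γ ∈ G, ex γ ∈ pgam (el e) := fun γ hγ => ex_mem e (hG hγ)
  have hmem1 : ∀ γ : Equiv.Perm (Fin n), γ ≠ 1 → ex γ ≠ 1 := by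
    intro γ h1 h2
    apply h1
    apply ex_inj
    rw [h2, ex_one]
  refine ⟨L, hLn, ⟨by norm_num, ?_, hE.L1, ?_, ?_⟩, ?_⟩
  · have := hE.tn
    omega
  · intro T hT
    have hT' : (insert (Fin.last n) (T.map Fin.castSuccEmb)).card = 3 := by
      rw [card_insert_of_notMem, card_map, hT]
      intro h
      rw [mem_map] at h
      obtain ⟨x, -, hx⟩ := h
      exact (Fin.castSucc_lt_last x).ne hx
    refine le_trans ?_ (hE.st _ hT')
    unfold pst
    apply card_le_card_of_injOn ex
    · intro γ hγ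
      rw [mem_coe, mem_filter] at hγ
      rw [mem_coe, mem_filter]
      obtain ⟨h1, h2⟩ := hγ
      unfold els at h1 ⊢
      rw [mem_filter] at h1 ⊢
      refine ⟨⟨mem_univ _, hmem γ h1.2⟩, ?_⟩
      intro x hx
      rw [mem_insert, mem_map] at hx
      rcases hx with rfl | ⟨y, hy, rfl⟩
      · exact ex_last γ
      · change ex γ y.castSucc = y.castSucc
        rw [ex_cast, h2 y hy]
    · intro γ _ γ' _ h
      exact ex_inj h
  · intro γ hγ h1
    refine le_trans ?_ (hE.fix (ex γ) (hmem γ hγ) (hmem1 γ h1))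
    unfold fx
    apply card_le_card_of_injOn Fin.castSucc
    · intro x hx
      rw [mem_coe, mem_filter] at hx ⊢
      refine ⟨mem_univ _, ?_⟩
      rw [ex_cast, hx.2]
    · intro x _ y _ h
      exact Fin.castSucc_injective n h
  · -- the count of the 3-cycles
    let P : Finset (Equiv.Perm (Fin n) × Finset (Fin n)) :=
      ((els G).filter (fun γ => γ ≠ 1) ×ˢ lev n 3).filter
        (fun p => mv p.1 p.2 = p.2 ∧ ∀ x ∈ p.2, ∀ y ∈ p.2, p.1.SameCycle x y)
    have hcyc : cyc G 3 = P.card := by
      unfold cyc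
      rw [card_filter, sum_product]
      apply sum_congr rfl
      intro γ _
      rw [card_filter]
    let Q : Finset ((K ≃+* K) × (Fin n × Fin n) × Fin (n + 1)) :=
      univ.filter (fun q => dp e q.1 q.2.2 = q.2.2)
    have hQ : Q.card ≤ L * (Nat.sqrt (n + 1) + 1) * n ^ 2 := by
      have h1 : Q.card = ∑ φ : K ≃+* K, ∑ _y : Fin n × Fin n, fx (dp e φ) := by
        rw [card_filter, Fintype.sum_prod_type]
        apply sum_congr rfl
        intro φ _
        rw [Fintype.sum_prod_type]
        apply sum_congr rfl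
        intro y _
        unfold fx
        rw [card_filter]
      rw [h1]
      calc ∑ φ : K ≃+* K, ∑ _y : Fin n × Fin n, fx (dp e φ)
          ≤ ∑ _φ : K ≃+* K, ∑ _y : Fin n × Fin n, (Nat.sqrt (n + 1) + 1) := by
            apply sum_le_sum
            intro φ _
            apply sum_le_sum
            intro y _
            exact hE.fix _ (dp_mem e φ) (dp_ne e φ)
        _ = L * (Nat.sqrt (n + 1) + 1) * n ^ 2 := by
            simp only [sum_const, card_univ, smul_eq_mul, Fintype.card_prod, Fintype.card_fin]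
            rw [← Nat.card_eq_fintype_card, hL]
            ring
    rw [hcyc]
    refine le_trans ?_ hQ
    apply card_le_card_of_forall_subsingleton (Rl e)
    · rintro ⟨γ, A⟩ hp
      rw [mem_filter, mem_product, mem_filter] at hp
      obtain ⟨⟨⟨hγ, hγ1⟩, hA⟩, hm, hs⟩ := hp
      simp only at hγ hγ1 hA hm hs
      unfold els at hγ
      rw [mem_filter] at hγ
      have hA3 : A.card = 3 := (mem_powersetCard.mp hA).2
      obtain ⟨x, n1, n2, n3, hcl, hAeq⟩ := three_cycle γ A hA3 hm hs
      obtain ⟨a, b, φ, hg⟩ := hG hγ.2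
      -- the three points in the field
      obtain ⟨X, rfl⟩ := e.surjective x
      have hY := hg X
      obtain ⟨Y, hYe⟩ : ∃ Y : K, Y = a * φ X + b := ⟨_, rfl⟩
      rw [← hYe] at hY
      have hZ := hg Y
      obtain ⟨Z, hZe⟩ : ∃ Z : K, Z = a * φ Y + b := ⟨_, rfl⟩
      rw [← hZe] at hZ
      have hX := hg Z
      rw [hY, hZ] at n2 n3 hAeq hcl
      rw [hY] at n1
      rw [hcl] at hX
      have hXe : X = a * φ Z + b := e.injective hX
      have nXY : X ≠ Y := fun h => n1 (congrArg e h)
      have nYZ : Y ≠ Z := fun h => n2 (congrArg e h)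
      have hYX : Y - X ≠ 0 := sub_ne_zero.mpr nXY.symm
      have hZY : Z - Y ≠ 0 := sub_ne_zero.mpr nYZ.symm
      have ha : (a : K) ≠ 0 := a.ne_zero
      have e1 : Z - Y = a * (φ Y - φ X) := by
        calc Z - Y = (a * φ Y + b) - (a * φ X + b) := by rw [← hZe, ← hYe]
          _ = a * (φ Y - φ X) := by ring
      have e2 : X - Z = a * (φ Z - φ Y) := by
        calc X - Z = (a * φ Z + b) - (a * φ Y + b) := by rw [← hXe, ← hZe]
          _ = a * (φ Z - φ Y) := by ring
      have hφYX : φ Y - φ X ≠ 0 := by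
        intro h
        rw [h, mul_zero] at e1
        exact hZY e1
      have hφu : φ ((Z - Y) / (Y - X)) = (X - Z) / (Z - Y) := by
        rw [map_div₀, map_sub, map_sub, e1, e2]
        field_simp
      have hφu1 : φ ((Z - Y) / (Y - X)) + 1 = (X - Y) / (Z - Y) := by
        rw [hφu]
        field_simp
        ring
      have hfix := dp_fix e φ ((Z - Y) / (Y - X)) (by
          rw [hφu1]
          exact div_ne_zero (sub_ne_zero.mpr nXY) hZY) (by
          rw [hφu1]
          field_simp
          ring)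
      have hu : Y + (Z - Y) / (Y - X) * (Y - X) = Z := by
        field_simp
        ring
      refine ⟨(φ, (e X, e Y), el e (((Z - Y) / (Y - X) : K) : OnePoint K)), ?_, ?_⟩
      · rw [mem_filter]
        exact ⟨mem_univ _, hfix⟩
      · refine ⟨(Z - Y) / (Y - X), a, b, rfl, n1, ?_, hg, ?_, ?_⟩
        · simp only [Equiv.symm_apply_apply]
          rw [hu]
          exact hAeq
        · simp only [Equiv.symm_apply_apply]
          exact hYe.symm
        · simp only [Equiv.symm_apply_apply]
          rw [hu]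
          exact hZe.symm
    · intro q _ p hp p' hp'
      exact Rl_unique e p p' q hp.2 hp'.2

end Pool.Agent.Helper23.FS
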