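import Pool.Agent.Helper23.FS.Path

/-!
# Determined edges and their decoding

Two systems of constants `w true` (the path `W`) and `w false` (the path `W'`), the same pattern.
-/

set_option autoImplicit false
set_option linter.unusedSectionVars false

namespace Pool.Agent.Helper23.FS

open Finset Equiv

variable {α : Type*} [Fintype α] [DecidableEq α]

/-- the end of the path -/
def fin (w : ℕ → Perm α) (g : ℕ → Option Bool) (N : ℕ) (y : Perm α) (x : α) : α :=
  w N (st w g y N x)

/-- the data of a determined edge: the case, the slots `i` (of `W`) and `j` (of `W'`), the sides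
and slots of an auxiliary edge -/
structure Dat (N : ℕ) where
  cs : Fin 3
  i : Fin N
  j : Fin N
  s : Bool
  t : Fin N
  s' : Bool
  t' : Fin N
  deriving DecidableEq

instance (N : ℕ) : Fintype (Dat N) :=
  Fintype.ofEquiv (Fin 3 × Fin N × Fin N × Bool × Fin N × Bool × Fin N)
    { toFun := fun p => ⟨p.1, p.2.1, p.2.2.1, p.2.2.2.1, p.2.2.2.2.1, p.2.2.2.2.2.1,
        p.2.2.2.2.2.2⟩
      invFun := fun d => ⟨d.cs, d.i, d.j, d.s, d.t, d.s', d.t'⟩
      left_inv := fun _ => rfl
      right_inv := fun _ => rfl }

theorem card_dat (N : ℕ) : Fintype.card (Dat N) = 12 * N ^ 4 := by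
  rw [Fintype.card_congr (show Dat N ≃ (Fin 3 × Fin N × Fin N × Bool × Fin N × Bool × Fin N) from
    { toFun := fun d => ⟨d.cs, d.i, d.j, d.s, d.t, d.s', d.t'⟩
      invFun := fun p => ⟨p.1, p.2.1, p.2.2.1, p.2.2.2.1, p.2.2.2.2.1, p.2.2.2.2.2.1,
        p.2.2.2.2.2.2⟩
      left_inv := fun _ => rfl
      right_inv := fun _ => rfl })]
  simp only [Fintype.card_prod, Fintype.card_fin, Fintype.card_bool]
  ring

/-- the slot of the edge on the side `s` -/
def Dat.sl {N : ℕ} (d : Dat N) (s : Bool) : ℕ := if s then (d.i : ℕ) else (d.j : ℕ)

variable (w : Bool → ℕ → Perm α) (g : ℕ → Option Bool) (N : ℕ)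

/-- the point before the edge is crossed in slot `i` of `W` -/
def bef (y' : Perm α) (x : α) (d : Dat N) : α := w true d.i (st (w true) g y' d.i x)

/-- the point after the edge -/
def aft (y' : Perm α) (x : α) (d : Dat N) : α :=
  match d.cs with
  | 0 => rn (w true) g y' N (d.i + 1) ((w true N)⁻¹ (w false N (st (w false) g y' N x)))
  | 1 => w false d.j (st (w false) g y' d.j x)
  | 2 => rn (w d.s') g y' d.t' (d.sl d.s' + 1) ((w d.s' d.t')⁻¹
      (if g d.t' = g d.t then w d.s d.t (st (w d.s) g y' d.t x)
        else ltr (g d.t) y' (w d.s d.t (st (w d.s) g y' d.t x))))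

/-- tail and head -/
def dec (y' : Perm α) (x : α) (d : Dat N) : α × α :=
  if g d.i = some true then (bef w g N y' x d, aft w g N y' x d)
  else (aft w g N y' x d, bef w g N y' x d)

/-- the edge with tail `c` is determined by the data `d` for the token `x` -/
def Det (y : Perm α) (x : α) (d : Dat N) (c : α) : Prop :=
  tc (w true) g y x d.i = some c ∧
  (∀ t < N, tc (w true) g y x t = some c → t = d.i) ∧
  match d.cs with
  | 0 => (∀ t < N, tc (w false) g y x t ≠ some c) ∧
      fin (w true) g N y x = fin (w false) g N y x
  | 1 => tc (w false) g y x d.j = some c ∧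
      (∀ t < N, tc (w false) g y x t = some c → t = d.j) ∧ g d.i ≠ g d.j
  | 2 => tc (w false) g y x d.j = some c ∧
      (∀ t < N, tc (w false) g y x t = some c → t = d.j) ∧
      g d.i = g d.j ∧ (d.t : ℕ) < d.sl d.s ∧ d.sl d.s' < d.t' ∧
      ∃ c', tc (w d.s) g y x d.t = some c' ∧ tc (w d.s') g y x d.t' = some c'

/-- the tails crossed by a token -/
def crs (y : Perm α) (x : α) : Finset α :=
  univ.filter fun c => ∃ s : Bool, ∃ t < N, tc (w s) g y x t = some c

theorem mem_crs (y : Perm α) (x c : α) :
    c ∈ crs w g N y x ↔ ∃ s : Bool, ∃ t < N, tc (w s) g y x t = some c := by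
  simp [crs]

theorem card_crs (y : Perm α) (x : α) : (crs w g N y x).card ≤ 2 * N := by
  have h1 : crs w g N y x ⊆ ((univ : Finset (Bool × Fin N)).image
      (fun p => (tc (w p.1) g y x p.2).getD x)) := by
    intro c hc
    rw [mem_crs] at hc
    obtain ⟨s, t, ht, h⟩ := hc
    rw [mem_image]
    exact ⟨(s, ⟨t, ht⟩), mem_univ _, by simp [h]⟩
  refine (card_le_card h1).trans (card_image_le.trans ?_)
  simp

/-- **decoding** -/
theorem dec_eq (y y' : Perm α) (x : α) (d : Dat N) (c : α) (hd : Det w g N y x d c)
    (h : ∀ c' ∈ crs w g N y x, c' ≠ c → y' c' = y c') :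
    dec w g N y' x d = (c, y c) := by
  obtain ⟨h1, h2, h3⟩ := hd
  -- agreement outside the slot
  have hW : ∀ t < N, t ≠ d.i → ∀ c', tc (w true) g y x t = some c' → y' c' = y c' := by
    intro t ht hti c' hc'
    apply h c' ((mem_crs w g N y x c').2 ⟨true, t, ht, hc'⟩)
    rintro rfl
    exact hti (h2 t ht hc')
  have hbef : bef w g N y' x d = w true d.i (st (w true) g y d.i x) := by
    unfold bef
    rw [st_agree (w true) g y y' x d.i fun t ht => hW t (ht.trans d.i.2) (by omega)]
  -- the point after the edge
  have haft : aft w g N y' x d = st (w true) g y (d.i + 1) x := by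
    have hcs : ∀ k : Fin 3, k = 0 ∨ k = 1 ∨ k = 2 := by decide
    rcases hcs d.cs with hk | hk | hk
    · -- case 0
      rw [hk] at h3
      obtain ⟨h4, h5⟩ := h3
      have hW' : ∀ t < N, ∀ c', tc (w false) g y x t = some c' → y' c' = y c' := by
        intro t ht c' hc'
        apply h c' ((mem_crs w g N y x c').2 ⟨false, t, ht, hc'⟩)
        rintro rfl
        exact h4 t ht hc'
      have h6 : aft w g N y' x d =
          rn (w true) g y' N (d.i + 1) ((w true N)⁻¹ (w false N (st (w false) g y' N x))) := by
        unfold aft
        rw [hk]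
      rw [h6, st_agree (w false) g y y' x N hW']
      have h7 : (w true N)⁻¹ (w false N (st (w false) g y N x)) = st (w true) g y N x := by
        rw [Perm.inv_eq_iff_eq]
        exact h5.symm
      rw [h7]
      exact rn_agree_ge (w true) g y y' x (by have := d.i.2; omega) fun t ht1 ht2 =>
        hW t ht2 (by omega)
    · -- case 1
      rw [hk] at h3
      obtain ⟨h4, h5, h6⟩ := h3
      have hW' : ∀ t < N, t ≠ d.j → ∀ c', tc (w false) g y x t = some c' → y' c' = y c' := by
        intro t ht htj c' hc'
        apply h c' ((mem_crs w g N y x c').2 ⟨false, t, ht, hc'⟩)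
        rintro rfl
        exact htj (h5 t ht hc')
      have h7 : aft w g N y' x d = w false d.j (st (w false) g y' d.j x) := by
        unfold aft
        rw [hk]
      rw [h7, st_agree (w false) g y y' x d.j fun t ht => hW' t (ht.trans d.j.2) (by omega)]
      rcases hgi : g d.i with _ | b
      · have := (tc_none (w true) g y x d.i).2 hgi
        rw [h1] at this
        exact absurd this (by simp)
      · rcases hgj : g d.j with _ | b'
        · have := (tc_none (w false) g y x d.j).2 hgj
          rw [h4] at this
          exact absurd this (by simp)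
        · have hbb : b ≠ b' := by
            rintro rfl
            exact h6 (hgi.trans hgj.symm)
          cases b <;> cases b'
          · exact absurd rfl hbb
          · rw [(tc_false (w true) g y x c d.i hgi h1).2,
              (tc_true (w false) g y x c d.j hgj h4).1]
          · rw [(tc_true (w true) g y x c d.i hgi h1).2,
              (tc_false (w false) g y x c d.j hgj h4).1]
          · exact absurd rfl hbb
    · -- case 2
      rw [hk] at h3
      obtain ⟨h4, h5, hg, h6, h7, c', hc, hc'⟩ := h3
      have hW' : ∀ t < N, t ≠ d.j → ∀ c', tc (w false) g y x t = some c' → y' c' = y c' := by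
        intro t ht htj c' hc'
        apply h c' ((mem_crs w g N y x c').2 ⟨false, t, ht, hc'⟩)
        rintro rfl
        exact htj (h5 t ht hc')
      have hS : ∀ s : Bool, ∀ t < N, t ≠ d.sl s → ∀ c', tc (w s) g y x t = some c' →
          y' c' = y c' := by
        intro s t ht hts
        cases s
        · exact hW' t ht hts
        · exact hW t ht hts
      have h9 : aft w g N y' x d = rn (w d.s') g y' d.t' (d.sl d.s' + 1) ((w d.s' d.t')⁻¹
          (if g d.t' = g d.t then w d.s d.t (st (w d.s) g y' d.t x)
          else ltr (g d.t) y' (w d.s d.t (st (w d.s) g y' d.t x)))) := by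
        unfold aft
        rw [hk]
      have h10 : st (w d.s) g y' d.t x = st (w d.s) g y d.t x :=
        st_agree (w d.s) g y y' x d.t fun t ht => hS d.s t (ht.trans d.t.2) (by omega)
      have h11 : ltr (g d.t) y' (w d.s d.t (st (w d.s) g y d.t x)) =
          st (w d.s) g y (d.t + 1) x :=
        ltr_agree (w d.s) g y y' x d.t (hS d.s d.t d.t.2 (by omega))
      rw [h9, h10, h11]
      -- the position before the slot `t'`
      have h12 : (if g d.t' = g d.t then w d.s d.t (st (w d.s) g y d.t x)
          else st (w d.s) g y (d.t + 1) x) = w d.s' d.t' (st (w d.s') g y d.t' x) := by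
        rcases hgt : g d.t' with _ | b
        · have := (tc_none (w d.s') g y x d.t').2 hgt
          rw [hc'] at this
          exact absurd this (by simp)
        · rcases hgt2 : g d.t with _ | b2
          · have := (tc_none (w d.s) g y x d.t).2 hgt2
            rw [hc] at this
            exact absurd this (by simp)
          · cases b <;> cases b2
            · rw [if_pos rfl, (tc_false (w d.s') g y x c' d.t' hgt hc').1,
                (tc_false (w d.s) g y x c' d.t hgt2 hc).1]
            · rw [if_neg (by simp), (tc_false (w d.s') g y x c' d.t' hgt hc').1,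
                (tc_true (w d.s) g y x c' d.t hgt2 hc).2]
            · rw [if_neg (by simp), (tc_true (w d.s') g y x c' d.t' hgt hc').1,
                (tc_false (w d.s) g y x c' d.t hgt2 hc).2]
            · rw [if_pos rfl, (tc_true (w d.s') g y x c' d.t' hgt hc').1,
                (tc_true (w d.s) g y x c' d.t hgt2 hc).1]
      rw [h12, show ∀ (u : Perm α) (v : α), u⁻¹ (u v) = v from fun u v => by simp]
      rw [rn_agree_ge (w d.s') g y y' x (by omega : d.sl d.s' + 1 ≤ d.t') fun t ht1 ht2 =>
        hS d.s' t (ht2.trans d.t'.2) (by omega)]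
      -- both sides leave the edge at the same end
      rcases hs : d.s' with _ | _
      · show st (w false) g y (d.j + 1) x = _
        rcases hgi : g d.i with _ | b
        · have := (tc_none (w true) g y x d.i).2 hgi
          rw [h1] at this
          exact absurd this (by simp)
        · have hgj : g d.j = some b := hg.symm.trans hgi
          cases b
          · rw [(tc_false (w false) g y x c d.j hgj h4).2,
              (tc_false (w true) g y x c d.i hgi h1).2]
          · rw [(tc_true (w false) g y x c d.j hgj h4).2,
              (tc_true (w true) g y x c d.i hgi h1).2]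
      · rfl
  unfold dec
  rw [hbef, haft]
  rcases hgi : g d.i with _ | b
  · have := (tc_none (w true) g y x d.i).2 hgi
    rw [h1] at this
    exact absurd this (by simp)
  · cases b
    · rw [if_neg (by simp), (tc_false (w true) g y x c d.i hgi h1).2,
        (tc_false (w true) g y x c d.i hgi h1).1]
    · rw [if_pos rfl, (tc_true (w true) g y x c d.i hgi h1).2,
        (tc_true (w true) g y x c d.i hgi h1).1]

end Pool.Agent.Helper23.FS
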