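import Mathlib

/-!
# Patterns without shifted matchings

Independent letters `g i` (`i : Fin N`), letter `l` of slot `i` has weight `p i l`; `P` is the set
of the letters which count (the letters different from the lazy one), each of weight at most `π`.
The weight of the patterns for which there are strictly monotone `a, b : Fin m → Fin N` with
`g (a k) = g (b k)`, a letter which counts, for all `k`, and with `a k ≠ b k` for at least `e` of
the `k`, is at most `(N.choose m) ^ 2 * π ^ e`.
-/

set_option autoImplicit false
set_option linter.unusedSectionVars false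

namespace Pool.Agent.Helper23.FS

open Finset

variable {L : Type*} [Fintype L] [DecidableEq L]

theorem sum_snoc {M : Type*} [AddCommMonoid M] (N : ℕ) (f : (Fin (N + 1) → L) → M) :
    ∑ g, f g = ∑ g : Fin N → L, ∑ l : L, f (Fin.snoc (α := fun _ => L) g l) := by
  rw [← Fintype.sum_prod_type']
  apply Fintype.sum_equiv ((Fin.snocEquiv (fun _ => L)).symm.trans (Equiv.prodComm _ _))
  intro g
  congr 1
  exact (Fin.snoc_init_self g).symm

/-- one constraint `g t = g (u t)`, `u t < t`, for every `t ∈ T` -/
theorem chain_le (P : L → Prop) [DecidablePred P] (π : ℝ) (hπ0 : 0 ≤ π) (N : ℕ)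
    (p : Fin N → L → ℝ) (hp : ∀ i l, 0 ≤ p i l) (h1 : ∀ i, ∑ l, p i l = 1)
    (hπ : ∀ i l, P l → p i l ≤ π) (T : Finset (Fin N)) (u : Fin N → Fin N)
    (hu : ∀ t ∈ T, u t < t) :
    ∑ g : Fin N → L, (if ∀ t ∈ T, g t = g (u t) ∧ P (g t) then ∏ i, p i (g i) else 0) ≤
      π ^ T.card := by
  induction N with
  | zero =>
    have hT : T = ∅ := by
      apply eq_empty_of_forall_notMem
      intro t _
      exact t.elim0
    subst hT
    simp
  | succ N ih =>
    obtain ⟨u', hu'⟩ : ∃ u' : Fin N → Fin N, ∀ t : Fin N, t.castSucc ∈ T →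
        (u' t).castSucc = u t.castSucc := by
      refine ⟨fun t => if h : (u t.castSucc : ℕ) < N then ⟨_, h⟩ else t, fun t ht => ?_⟩
      have h2 := hu _ ht
      have h3 : (u t.castSucc : ℕ) < N := lt_trans (Fin.lt_def.1 h2) (by simp)
      simp only [h3, dif_pos]
      rfl
    obtain ⟨T', hT'⟩ : ∃ T' : Finset (Fin N), ∀ t, t ∈ T' ↔ t.castSucc ∈ T :=
      ⟨univ.filter fun t => t.castSucc ∈ T, by simp⟩
    have hcard : T.card = T'.card + (if Fin.last N ∈ T then 1 else 0) := by
      have h2 : T = T'.map ⟨Fin.castSucc, Fin.castSucc_injective N⟩ ∪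
          (if Fin.last N ∈ T then {Fin.last N} else ∅) := by
        ext t
        simp only [mem_union, mem_map, Function.Embedding.coeFn_mk]
        constructor
        · intro ht
          rcases Fin.eq_castSucc_or_eq_last t with ⟨s, rfl⟩ | rfl
          · exact Or.inl ⟨s, (hT' s).2 ht, rfl⟩
          · right
            rw [if_pos ht]
            simp
        · rintro (⟨s, hs, rfl⟩ | h)
          · exact (hT' s).1 hs
          · split_ifs at h with h3
            · rw [mem_singleton] at h
              rw [h]
              exact h3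
            · simp at h
      have h3 : Disjoint (T'.map ⟨Fin.castSucc, Fin.castSucc_injective N⟩)
          (if Fin.last N ∈ T then {Fin.last N} else ∅) := by
        rw [disjoint_left]
        intro t ht h
        rw [mem_map] at ht
        obtain ⟨s, _, rfl⟩ := ht
        split_ifs at h
        · rw [mem_singleton] at h
          exact absurd h (Fin.castSucc_lt_last s).ne
        · simp at h
      calc T.card = (T'.map ⟨Fin.castSucc, Fin.castSucc_injective N⟩ ∪
          (if Fin.last N ∈ T then {Fin.last N} else ∅)).card := by rw [← h2]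
        _ = T'.card + (if Fin.last N ∈ T then 1 else 0) := by
            rw [card_union_of_disjoint h3, card_map]
            split_ifs <;> simp
    have ih' := ih (fun i => p i.castSucc) (fun i l => hp _ l) (fun i => h1 _)
      (fun i l hl => hπ _ l hl) T' u' (by
        intro t ht
        have h2 := hu _ ((hT' t).1 ht)
        rw [← hu' t ((hT' t).1 ht)] at h2
        exact h2)
    rw [sum_snoc]
    calc ∑ g : Fin N → L, ∑ l : L,
          (if ∀ t ∈ T, (Fin.snoc (α := fun _ => L) g l : Fin (N + 1) → L) t =
            (Fin.snoc (α := fun _ => L) g l : Fin (N + 1) → L) (u t) ∧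
            P ((Fin.snoc (α := fun _ => L) g l : Fin (N + 1) → L) t)
          then ∏ i, p i ((Fin.snoc (α := fun _ => L) g l : Fin (N + 1) → L) i) else 0) ≤
        ∑ g : Fin N → L, (if ∀ t ∈ T', g t = g (u' t) ∧ P (g t) then
          ∏ i, p (Fin.castSucc i) (g i) else 0) * (if Fin.last N ∈ T then π else 1) := by
          apply sum_le_sum
          intro g _
          by_cases hg : ∀ t ∈ T', g t = g (u' t) ∧ P (g t)
          · rw [if_pos hg]
            have hpr : 0 ≤ ∏ i : Fin N, p (Fin.castSucc i) (g i) :=
              prod_nonneg fun i _ => hp _ _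
            by_cases hl : Fin.last N ∈ T
            · rw [if_pos hl]
              -- the last letter is determined
              have h3 : (u (Fin.last N) : ℕ) < N := by
                have := hu _ hl
                exact Fin.lt_def.1 this
              obtain ⟨l0, hl0⟩ : ∃ l0, l0 = g ⟨u (Fin.last N), h3⟩ := ⟨_, rfl⟩
              calc ∑ l : L, (if ∀ t ∈ T, (Fin.snoc (α := fun _ => L) g l : Fin (N + 1) → L) t =
                    (Fin.snoc (α := fun _ => L) g l : Fin (N + 1) → L) (u t) ∧
                    P ((Fin.snoc (α := fun _ => L) g l : Fin (N + 1) → L) t)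
                  then ∏ i, p i ((Fin.snoc (α := fun _ => L) g l : Fin (N + 1) → L) i)
                  else 0) ≤ ∑ l : L, (if l = l0 then
                    (∏ i : Fin N, p (Fin.castSucc i) (g i)) * π else 0) := by
                    apply sum_le_sum
                    intro l _
                    split_ifs with h4 h5 h5
                    · obtain ⟨h6, h7⟩ := h4 _ hl
                      rw [Fin.snoc_last] at h7
                      rw [Fin.prod_univ_castSucc]
                      simp only [Fin.snoc_castSucc, Fin.snoc_last]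
                      exact mul_le_mul_of_nonneg_left (hπ _ _ h7) hpr
                    · exfalso
                      apply h5
                      obtain ⟨h6, h7⟩ := h4 _ hl
                      rw [Fin.snoc_last] at h6
                      rw [h6, hl0]
                      have h8 : u (Fin.last N) = Fin.castSucc ⟨u (Fin.last N), h3⟩ := rfl
                      conv_lhs => rw [h8]
                      rw [Fin.snoc_castSucc]
                    · exact mul_nonneg hpr hπ0
                    · exact le_rfl
                _ = (∏ i : Fin N, p (Fin.castSucc i) (g i)) * π := by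
                    rw [sum_ite_eq' univ l0, if_pos (mem_univ _)]
            · rw [if_neg hl, mul_one]
              calc ∑ l : L, (if ∀ t ∈ T, (Fin.snoc (α := fun _ => L) g l : Fin (N + 1) → L) t =
                    (Fin.snoc (α := fun _ => L) g l : Fin (N + 1) → L) (u t) ∧
                    P ((Fin.snoc (α := fun _ => L) g l : Fin (N + 1) → L) t)
                  then ∏ i, p i ((Fin.snoc (α := fun _ => L) g l : Fin (N + 1) → L) i)
                  else 0) ≤ ∑ l : L,
                    (∏ i : Fin N, p (Fin.castSucc i) (g i)) * p (Fin.last N) l := by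
                    apply sum_le_sum
                    intro l _
                    split_ifs with h4
                    · rw [Fin.prod_univ_castSucc]
                      simp only [Fin.snoc_castSucc, Fin.snoc_last]
                      exact le_rfl
                    · exact mul_nonneg hpr (hp _ _)
                _ = ∏ i : Fin N, p (Fin.castSucc i) (g i) := by
                    rw [← mul_sum, h1, mul_one]
          · rw [if_neg hg, zero_mul]
            apply le_of_eq
            apply sum_eq_zero
            intro l _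
            rw [if_neg]
            intro h4
            apply hg
            intro t ht
            have h5 := (hT' t).1 ht
            obtain ⟨h6, h7⟩ := h4 _ h5
            rw [← hu' t h5] at h6
            simp only [Fin.snoc_castSucc] at h6 h7
            exact ⟨h6, h7⟩
      _ = (∑ g : Fin N → L, (if ∀ t ∈ T', g t = g (u' t) ∧ P (g t) then
          ∏ i, p (Fin.castSucc i) (g i) else 0)) * (if Fin.last N ∈ T then π else 1) := by
          rw [sum_mul]
      _ ≤ π ^ T'.card * (if Fin.last N ∈ T then π else 1) := by
          apply mul_le_mul_of_nonneg_right ih'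
          split_ifs
          · exact hπ0
          · exact zero_le_one
      _ = π ^ T.card := by
          rw [hcard]
          split_ifs
          · rw [pow_succ]
          · simp

/-- the strictly monotone maps -/
def sm (m N : ℕ) : Finset (Fin m → Fin N) := by
  classical
  exact univ.filter fun a => StrictMono a

theorem mem_sm (m N : ℕ) (a : Fin m → Fin N) : a ∈ sm m N ↔ StrictMono a := by
  classical
  simp [sm]

theorem card_sm (m N : ℕ) : (sm m N).card ≤ N.choose m := by
  classical
  have h1 : (powersetCard m (univ : Finset (Fin N))).card = N.choose m := by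
    rw [card_powersetCard, card_univ, Fintype.card_fin]
  rw [← h1]
  apply card_le_card_of_injOn (fun a => univ.image a)
  · intro a ha
    have h2 : StrictMono a := (mem_sm m N a).1 ha
    rw [mem_coe, mem_powersetCard]
    refine ⟨subset_univ _, ?_⟩
    rw [card_image_of_injective _ h2.injective, card_univ, Fintype.card_fin]
  · intro a ha b hb hab
    have h2 : StrictMono a := (mem_sm m N a).1 ha
    have h3 : StrictMono b := (mem_sm m N b).1 hb
    apply (StrictMono.range_inj h2 h3).1
    have h4 : ((univ.image a : Finset (Fin N)) : Set (Fin N)) = (univ.image b : Finset (Fin N)) :=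
      congrArg _ hab
    simpa using h4

/-- a matching of `m` slots with equal letters, at least `e` of them shifted -/
def Mat (P : L → Prop) (N m e : ℕ) (g : Fin N → L) : Prop :=
  ∃ a b : Fin m → Fin N, StrictMono a ∧ StrictMono b ∧ (∀ k, g (a k) = g (b k) ∧ P (g (a k))) ∧
    ∃ K : Finset (Fin m), e ≤ K.card ∧ ∀ k ∈ K, a k ≠ b k

/-- one pair of maps -/
theorem pair_le (P : L → Prop) [DecidablePred P] (π : ℝ) (hπ0 : 0 ≤ π) (hπ1 : π ≤ 1) (N : ℕ)
    (p : Fin N → L → ℝ) (hp : ∀ i l, 0 ≤ p i l) (h1 : ∀ i, ∑ l, p i l = 1)
    (hπ : ∀ i l, P l → p i l ≤ π) (m e : ℕ) (a b : Fin m → Fin N) (ha : StrictMono a)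
    (hb : StrictMono b) (he : ∃ K : Finset (Fin m), e ≤ K.card ∧ ∀ k ∈ K, a k ≠ b k) :
    ∑ g : Fin N → L, (if ∀ k, g (a k) = g (b k) ∧ P (g (a k)) then ∏ i, p i (g i) else 0) ≤
      π ^ e := by
  classical
  obtain ⟨K, heK, hK⟩ := he
  obtain ⟨v, hv⟩ : ∃ v : Fin m → Fin N, ∀ k, v k = max (a k) (b k) := ⟨_, fun _ => rfl⟩
  have hvm : StrictMono v := by
    intro k l hkl
    rw [hv, hv]
    exact max_lt_max (ha hkl) (hb hkl)
  obtain ⟨T, hT⟩ : ∃ T : Finset (Fin N), T = K.image v := ⟨_, rfl⟩
  have hTc : T.card = K.card := by
    rw [hT, card_image_of_injective _ hvm.injective]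
  obtain ⟨u, hu⟩ : ∃ u : Fin N → Fin N, ∀ k, u (v k) = min (a k) (b k) := by
    refine ⟨fun t => if h : ∃ k, v k = t then min (a h.choose) (b h.choose) else t, fun k => ?_⟩
    have h2 : ∃ l, v l = v k := ⟨k, rfl⟩
    simp only [h2, dif_pos]
    have h3 : h2.choose = k := hvm.injective h2.choose_spec
    rw [h3]
  have hlt : ∀ t ∈ T, u t < t := by
    intro t ht
    rw [hT, mem_image] at ht
    obtain ⟨k, hk, rfl⟩ := ht
    rw [hu, hv]
    exact min_lt_max.2 (hK k hk)
  have h2 := chain_le P π hπ0 N p hp h1 hπ T u hlt
  have h3 : π ^ T.card ≤ π ^ e := by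
    rw [hTc]
    exact pow_le_pow_of_le_one hπ0 hπ1 heK
  refine le_trans ?_ (h2.trans h3)
  apply sum_le_sum
  intro g _
  split_ifs with h4 h5 h5
  · exact le_rfl
  · exfalso
    apply h5
    intro t ht
    rw [hT, mem_image] at ht
    obtain ⟨k, hk, rfl⟩ := ht
    rw [hu, hv]
    obtain ⟨h6, h7⟩ := h4 k
    rcases le_total (a k) (b k) with h8 | h8
    · rw [max_eq_right h8, min_eq_left h8]
      exact ⟨h6.symm, h6 ▸ h7⟩
    · rw [max_eq_left h8, min_eq_right h8]
      exact ⟨h6, h7⟩
  · exact prod_nonneg fun i _ => hp _ _
  · exact le_rfl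

open Classical in
/-- **the pattern lemma** -/
theorem mat_le (P : L → Prop) (π : ℝ) (hπ0 : 0 ≤ π) (hπ1 : π ≤ 1) (N : ℕ)
    (p : Fin N → L → ℝ) (hp : ∀ i l, 0 ≤ p i l) (h1 : ∀ i, ∑ l, p i l = 1)
    (hπ : ∀ i l, P l → p i l ≤ π) (m e : ℕ) :
    ∑ g : Fin N → L with Mat P N m e g, ∏ i, p i (g i) ≤ (N.choose m : ℝ) ^ 2 * π ^ e := by
  have hpr : ∀ g : Fin N → L, 0 ≤ ∏ i, p i (g i) := fun g => prod_nonneg fun i _ => hp _ _
  calc ∑ g : Fin N → L with Mat P N m e g, ∏ i, p i (g i) ≤
      ∑ g : Fin N → L, ∑ a ∈ sm m N, ∑ b ∈ sm m N,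
        (if ∃ K : Finset (Fin m), e ≤ K.card ∧ ∀ k ∈ K, a k ≠ b k then
          (if ∀ k, g (a k) = g (b k) ∧ P (g (a k)) then ∏ i, p i (g i) else 0) else 0) := by
        rw [sum_filter]
        apply sum_le_sum
        intro g _
        have hnn : ∀ a b : Fin m → Fin N, 0 ≤
            (if ∃ K : Finset (Fin m), e ≤ K.card ∧ ∀ k ∈ K, a k ≠ b k then
              (if ∀ k, g (a k) = g (b k) ∧ P (g (a k)) then ∏ i, p i (g i) else 0) else 0) := by
          intro a b
          split_ifs
          · exact hpr g
          · exact le_rfl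
          · exact le_rfl
        split_ifs with h2
        · obtain ⟨a, b, ha, hb, h3, h4⟩ := h2
          calc ∏ i, p i (g i) =
              (if ∃ K : Finset (Fin m), e ≤ K.card ∧ ∀ k ∈ K, a k ≠ b k then
              (if ∀ k, g (a k) = g (b k) ∧ P (g (a k)) then ∏ i, p i (g i) else 0) else 0) := by
                rw [if_pos h4, if_pos h3]
            _ ≤ ∑ b ∈ sm m N, (if ∃ K : Finset (Fin m), e ≤ K.card ∧ ∀ k ∈ K, a k ≠ b k then
              (if ∀ k, g (a k) = g (b k) ∧ P (g (a k)) then ∏ i, p i (g i) else 0) else 0) :=
                single_le_sum (f := fun b =>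
                  (if ∃ K : Finset (Fin m), e ≤ K.card ∧ ∀ k ∈ K, a k ≠ b k then
              (if ∀ k, g (a k) = g (b k) ∧ P (g (a k)) then ∏ i, p i (g i) else 0) else 0))
                  (fun b _ => hnn a b) ((mem_sm m N b).2 hb)
            _ ≤ _ := single_le_sum (f := fun a => ∑ b ∈ sm m N,
                  (if ∃ K : Finset (Fin m), e ≤ K.card ∧ ∀ k ∈ K, a k ≠ b k then
              (if ∀ k, g (a k) = g (b k) ∧ P (g (a k)) then ∏ i, p i (g i) else 0) else 0))
                  (fun a _ => sum_nonneg fun b _ => hnn a b) ((mem_sm m N a).2 ha)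
        · exact sum_nonneg fun a _ => sum_nonneg fun b _ => hnn a b
    _ = ∑ a ∈ sm m N, ∑ b ∈ sm m N, ∑ g : Fin N → L,
        (if ∃ K : Finset (Fin m), e ≤ K.card ∧ ∀ k ∈ K, a k ≠ b k then
          (if ∀ k, g (a k) = g (b k) ∧ P (g (a k)) then ∏ i, p i (g i) else 0) else 0) := by
        rw [sum_comm]
        apply sum_congr rfl
        intro a _
        rw [sum_comm]
    _ ≤ ∑ a ∈ sm m N, ∑ b ∈ sm m N, π ^ e := by
        apply sum_le_sum
        intro a ha
        apply sum_le_sum
        intro b hb
        by_cases h2 : ∃ K : Finset (Fin m), e ≤ K.card ∧ ∀ k ∈ K, a k ≠ b k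
        · simp only [if_pos h2]
          exact pair_le P π hπ0 hπ1 N p hp h1 hπ m e a b ((mem_sm m N a).1 ha)
            ((mem_sm m N b).1 hb) h2
        · simp only [if_neg h2]
          simp only [sum_const_zero]
          exact pow_nonneg hπ0 e
    _ = ((sm m N).card : ℝ) ^ 2 * π ^ e := by
        simp only [sum_const, nsmul_eq_mul]
        ring
    _ ≤ (N.choose m : ℝ) ^ 2 * π ^ e := by
        apply mul_le_mul_of_nonneg_right _ (pow_nonneg hπ0 e)
        apply pow_le_pow_left₀ (by positivity)
        exact_mod_cast card_sm m N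

end Pool.Agent.Helper23.FS
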