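import Mathlib

/-!
# Paths with constants and one fresh permutation

`w : ℕ → Perm α` are constants, `g : ℕ → Option Bool` is the pattern (`some true` is the letter
`y`, `some false` the letter `y⁻¹`, `none` a lazy slot).  Slot `i` applies first the constant `w i`
and then the letter `g i`.
-/

set_option autoImplicit false
set_option linter.unusedSectionVars false

namespace Pool.Agent.Helper23.FS

open Finset Equiv

variable {α : Type*} [Fintype α] [DecidableEq α]

/-- the permutation of a letter -/
def ltr (o : Option Bool) (y : Perm α) : Perm α :=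
  match o with
  | none => 1
  | some true => y
  | some false => y⁻¹

/-- position after `i` slots -/
def st (w : ℕ → Perm α) (g : ℕ → Option Bool) (y : Perm α) : ℕ → Perm α
  | 0 => 1
  | i + 1 => ltr (g i) y * (w i * st w g y i)

/-- from the time `i` to the time `j` (forwards or backwards) -/
def rn (w : ℕ → Perm α) (g : ℕ → Option Bool) (y : Perm α) (i j : ℕ) : Perm α :=
  st w g y j * (st w g y i)⁻¹

/-- the tail of the edge of `y` which the path of `x` crosses in slot `t` -/
def tc (w : ℕ → Perm α) (g : ℕ → Option Bool) (y : Perm α) (x : α) (t : ℕ) : Option α :=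
  match g t with
  | none => none
  | some true => some (w t (st w g y t x))
  | some false => some (st w g y (t + 1) x)

theorem st_succ (w : ℕ → Perm α) (g : ℕ → Option Bool) (y : Perm α) (i : ℕ) (x : α) :
    st w g y (i + 1) x = ltr (g i) y (w i (st w g y i x)) := rfl

theorem st_zero (w : ℕ → Perm α) (g : ℕ → Option Bool) (y : Perm α) (x : α) :
    st w g y 0 x = x := rfl

theorem rn_apply_st (w : ℕ → Perm α) (g : ℕ → Option Bool) (y : Perm α) (i j : ℕ) (x : α) :
    rn w g y i j (st w g y i x) = st w g y j x := by
  unfold rn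
  simp

theorem rn_zero (w : ℕ → Perm α) (g : ℕ → Option Bool) (y : Perm α) (j : ℕ) :
    rn w g y 0 j = st w g y j := by
  unfold rn
  simp [st]

/-- one letter: if `y'` agrees with `y` at the crossed edge then the letter does the same -/
theorem ltr_agree (w : ℕ → Perm α) (g : ℕ → Option Bool) (y y' : Perm α) (x : α) (t : ℕ)
    (h : ∀ c, tc w g y x t = some c → y' c = y c) :
    ltr (g t) y' (w t (st w g y t x)) = st w g y (t + 1) x := by
  rw [st_succ]
  unfold tc at h
  rcases hg : g t with _ | b
  · rfl
  · cases b
    · rw [hg] at h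
      have h1 := h _ rfl
      rw [st_succ, hg] at h1
      simp only [ltr] at h1 ⊢
      rw [Perm.inv_eq_iff_eq]
      rw [h1]
      simp
    · rw [hg] at h
      exact h _ rfl

/-- running with `y'` instead of `y` -/
theorem rn_agree_le (w : ℕ → Perm α) (g : ℕ → Option Bool) (y y' : Perm α) (x : α) {i j : ℕ}
    (hij : i ≤ j)
    (h : ∀ t, i ≤ t → t < j → ∀ c, tc w g y x t = some c → y' c = y c) :
    rn w g y' i j (st w g y i x) = st w g y j x := by
  induction j, hij using Nat.le_induction with
  | base =>
    unfold rn
    simp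
  | succ j hj ih =>
    have h1 := ih fun t h2 h3 => h t h2 (by omega)
    have h4 : rn w g y' i (j + 1) (st w g y i x) =
        ltr (g j) y' (w j (rn w g y' i j (st w g y i x))) := by
      unfold rn
      rfl
    rw [h4, h1]
    exact ltr_agree w g y y' x j (h j hj (by omega))

theorem rn_agree_ge (w : ℕ → Perm α) (g : ℕ → Option Bool) (y y' : Perm α) (x : α) {i j : ℕ}
    (hij : i ≤ j)
    (h : ∀ t, i ≤ t → t < j → ∀ c, tc w g y x t = some c → y' c = y c) :
    rn w g y' j i (st w g y j x) = st w g y i x := by
  have h1 := rn_agree_le w g y y' x hij h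
  rw [← h1]
  unfold rn
  simp

theorem st_agree (w : ℕ → Perm α) (g : ℕ → Option Bool) (y y' : Perm α) (x : α) (j : ℕ)
    (h : ∀ t, t < j → ∀ c, tc w g y x t = some c → y' c = y c) :
    st w g y' j x = st w g y j x := by
  have h1 := rn_agree_le w g y y' x (Nat.zero_le j) fun t _ h2 => h t h2
  rw [rn_zero, st_zero] at h1
  exact h1

theorem tc_none (w : ℕ → Perm α) (g : ℕ → Option Bool) (y : Perm α) (x : α) (t : ℕ) :
    tc w g y x t = none ↔ g t = none := by
  unfold tc
  rcases g t with _ | b
  · simp
  · cases b <;> simp

/-- the two ends of a crossed edge -/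
theorem tc_true (w : ℕ → Perm α) (g : ℕ → Option Bool) (y : Perm α) (x c : α) (t : ℕ)
    (hg : g t = some true) (h : tc w g y x t = some c) :
    w t (st w g y t x) = c ∧ st w g y (t + 1) x = y c := by
  unfold tc at h
  rw [hg] at h
  have h1 : w t (st w g y t x) = c := by simpa using h
  refine ⟨h1, ?_⟩
  rw [st_succ, hg, h1]
  rfl

theorem tc_false (w : ℕ → Perm α) (g : ℕ → Option Bool) (y : Perm α) (x c : α) (t : ℕ)
    (hg : g t = some false) (h : tc w g y x t = some c) :
    w t (st w g y t x) = y c ∧ st w g y (t + 1) x = c := by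
  unfold tc at h
  rw [hg] at h
  have h1 : st w g y (t + 1) x = c := by simpa using h
  refine ⟨?_, h1⟩
  rw [← h1, st_succ, hg]
  simp [ltr]

end Pool.Agent.Helper23.FS
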